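import Pool.Agent.helper78.ED.Defs
import Pool.Agent.helper23.DM.FM

/-!
Module MJ of the ED project: fourth moments of the local averages of the zeta function.
-/

set_option autoImplicit false

open Complex MeasureTheory

namespace Pool.Agent.helper78.ED

open Pool.Agent.helper84.DM

/-- Cauchy-Schwarz with a weight -/
theorem MJ_cs {f g : ℝ → ℝ} {a b : ℝ} (hab : a ≤ b) (hf : Continuous f) (hg : Continuous g)
    (hg0 : ∀ x, 0 ≤ g x) :
    (∫ x in a..b, f x * g x) ^ 2 ≤ (∫ x in a..b, g x) * ∫ x in a..b, f x ^ 2 * g x := by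
  have key : ∀ t : ℝ, 0 ≤ (∫ x in a..b, g x) * (t * t) + (-2 * ∫ x in a..b, f x * g x) * t +
      ∫ x in a..b, f x ^ 2 * g x := by
    intro t
    have h : ∫ x in a..b, (f x - t) ^ 2 * g x = (∫ x in a..b, g x) * (t * t) +
        (-2 * ∫ x in a..b, f x * g x) * t + ∫ x in a..b, f x ^ 2 * g x := by
      have h1 : ∀ x, (f x - t) ^ 2 * g x = f x ^ 2 * g x - 2 * t * (f x * g x) + t ^ 2 * g x := by
        intro x; ring
      simp only [h1]
      rw [intervalIntegral.integral_add, intervalIntegral.integral_sub,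
        intervalIntegral.integral_const_mul, intervalIntegral.integral_const_mul]
      · ring
      · exact ((hf.pow 2).mul hg).intervalIntegrable _ _
      · exact (continuous_const.mul (hf.mul hg)).intervalIntegrable _ _
      · exact (((hf.pow 2).mul hg).sub (continuous_const.mul (hf.mul hg))).intervalIntegrable _ _
      · exact (continuous_const.mul hg).intervalIntegrable _ _
    rw [← h]
    exact intervalIntegral.integral_nonneg hab fun x _ => mul_nonneg (sq_nonneg _) (hg0 x)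
  have h2 := discrim_le_zero key
  unfold discrim at h2
  nlinarith [h2]

theorem MJ_four {f g : ℝ → ℝ} {a b : ℝ} (hab : a ≤ b) (hf : Continuous f) (hg : Continuous g)
    (hg0 : ∀ x, 0 ≤ g x) :
    (∫ x in a..b, f x * g x) ^ 4 ≤ (∫ x in a..b, g x) ^ 3 * ∫ x in a..b, f x ^ 4 * g x := by
  have h1 := MJ_cs hab hf hg hg0
  have h2 := MJ_cs (f := fun x => f x ^ 2) hab (hf.pow 2) hg hg0
  have hG : 0 ≤ ∫ x in a..b, g x := intervalIntegral.integral_nonneg hab fun x _ => hg0 x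
  have e1 : ∀ x, (f x ^ 2) ^ 2 * g x = f x ^ 4 * g x := by intro x; ring
  simp only [e1] at h2
  have hP : 0 ≤ (∫ x in a..b, f x * g x) ^ 2 := sq_nonneg _
  calc (∫ x in a..b, f x * g x) ^ 4 = ((∫ x in a..b, f x * g x) ^ 2) ^ 2 := by ring
    _ ≤ ((∫ x in a..b, g x) * ∫ x in a..b, f x ^ 2 * g x) ^ 2 := by gcongr
    _ = (∫ x in a..b, g x) ^ 2 * (∫ x in a..b, f x ^ 2 * g x) ^ 2 := by ring
    _ ≤ (∫ x in a..b, g x) ^ 2 * ((∫ x in a..b, g x) * ∫ x in a..b, f x ^ 4 * g x) := by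
      gcongr
    _ = _ := by ring

/-- the gaussian weight around the integer `j` -/
noncomputable def MJ_g (j : ℕ) (u : ℝ) : ℝ := Real.exp (-(u - j) ^ 2 / 2)

theorem MJ_g_cont (j : ℕ) : Continuous (MJ_g j) := by
  unfold MJ_g; fun_prop

theorem MJ_g_pos (j : ℕ) (u : ℝ) : 0 ≤ MJ_g j u := (Real.exp_pos _).le

theorem MJ_g_int (j : ℕ) {a b : ℝ} (hab : a ≤ b) : ∫ u in a..b, MJ_g j u ≤ 3 := by
  have h1 : ∀ u, MJ_g j u = Real.exp (-(1 / 2) * (u - j) ^ 2) := by
    intro u; unfold MJ_g; congr 1; ring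
  have hint : Integrable (fun u : ℝ => Real.exp (-(1 / 2) * (u - j) ^ 2)) :=
    (integrable_exp_neg_mul_sq (by norm_num : (0 : ℝ) < 1 / 2)).comp_sub_right (j : ℝ)
  simp only [h1]
  rw [intervalIntegral.integral_of_le hab]
  refine (setIntegral_le_integral hint (Filter.Eventually.of_forall fun u =>
    (Real.exp_pos _).le)).trans ?_
  rw [integral_sub_right_eq_self (fun u : ℝ => Real.exp (-(1 / 2) * u ^ 2)), integral_gaussian]
  rw [Real.sqrt_le_left (by norm_num)]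
  have := Real.pi_lt_d2
  norm_num
  linarith

theorem MJ_g_sum (u : ℝ) (hu : 0 ≤ u) (N : ℕ) :
    ∑ j ∈ Finset.range N, MJ_g j u ≤ Real.exp 2 * 4 := by
  set n := ⌊u⌋₊ with hn
  have hn1 : (n : ℝ) ≤ u := Nat.floor_le hu
  have hn2 : u < n + 1 := Nat.lt_floor_add_one u
  set r : ℝ := Real.exp (-1) with hr
  have hr0 : 0 < r := Real.exp_pos _
  have hr1 : r ≤ 1 / 2 := by
    rw [hr, Real.exp_neg, ← one_div]
    apply one_div_le_one_div_of_le (by norm_num)
    have := Real.add_one_le_exp 1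
    linarith
  have hgeo : ∀ M : ℕ, ∑ k ∈ Finset.range M, r ^ k ≤ 2 := by
    intro M
    have h1 : ∑ k ∈ Finset.range M, r ^ k ≤ ∑ k ∈ Finset.range M, (1 / 2 : ℝ) ^ k :=
      Finset.sum_le_sum fun k _ => pow_le_pow_left₀ hr0.le hr1 k
    refine h1.trans ?_
    have h2 := Summable.sum_le_tsum (Finset.range M) (fun k _ => by positivity)
      (summable_geometric_two)
    rw [tsum_geometric_two] at h2
    exact h2
  have hpt : ∀ j : ℕ, MJ_g j u ≤ Real.exp 2 * (if j ≤ n then r ^ (n - j) else r ^ (j - n)) := by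
    intro j
    have hj : -(u - j) ^ 2 / 2 ≤ 2 + (-1) * |(n : ℝ) - j| := by
      rcases abs_cases ((n : ℝ) - j) with ⟨h1, h2⟩ | ⟨h1, h2⟩ <;> rw [h1] <;>
        nlinarith [sq_nonneg (u - j - 1), sq_nonneg (u - j + 1)]
    have hpow : Real.exp ((-1) * |(n : ℝ) - j|) =
        if j ≤ n then r ^ (n - j) else r ^ (j - n) := by
      split_ifs with h
      · have : |(n : ℝ) - j| = ((n - j : ℕ) : ℝ) := by
          rw [Nat.cast_sub h, abs_of_nonneg]
          have : (j : ℝ) ≤ n := by exact_mod_cast h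
          linarith
        rw [this, hr, ← Real.exp_nat_mul]
        congr 1; ring
      · have hlt : n ≤ j := by omega
        have : |(n : ℝ) - j| = ((j - n : ℕ) : ℝ) := by
          rw [Nat.cast_sub hlt, abs_of_nonpos]
          · ring
          · have : (n : ℝ) ≤ j := by exact_mod_cast hlt
            linarith
        rw [this, hr, ← Real.exp_nat_mul]
        congr 1; ring
    rw [← hpow, ← Real.exp_add]
    exact Real.exp_le_exp.mpr hj
  refine (Finset.sum_le_sum fun j _ => hpt j).trans ?_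
  rw [← Finset.mul_sum]
  refine mul_le_mul_of_nonneg_left ?_ (Real.exp_pos _).le
  rw [Finset.sum_ite]
  have h1 : ∑ j ∈ Finset.range N with j ≤ n, r ^ (n - j) ≤ 2 := by
    have hinj : Set.InjOn (fun j : ℕ => n - j) ((Finset.range N).filter (· ≤ n)) := by
      intro a ha b hb hab
      simp only [Finset.coe_filter, Set.mem_ofPred_eq] at ha hb hab
      omega
    rw [← Finset.sum_image (f := fun k => r ^ k) hinj]
    refine (Finset.sum_le_sum_of_subset_of_nonneg (t := Finset.range (n + 1)) ?_ ?_).trans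
      (hgeo (n + 1))
    · intro k hk
      simp only [Finset.mem_image, Finset.mem_filter, Finset.mem_range] at hk ⊢
      omega
    · intro k _ _
      positivity
  have h2 : ∑ j ∈ Finset.range N with ¬ j ≤ n, r ^ (j - n) ≤ 2 := by
    have hinj : Set.InjOn (fun j : ℕ => j - n) ((Finset.range N).filter (¬ · ≤ n)) := by
      intro a ha b hb hab
      simp only [Finset.coe_filter, Set.mem_ofPred_eq] at ha hb hab
      omega
    rw [← Finset.sum_image (f := fun k => r ^ k) hinj]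
    refine (Finset.sum_le_sum_of_subset_of_nonneg (t := Finset.range N) ?_ ?_).trans
      (hgeo N)
    · intro k hk
      simp only [Finset.mem_image, Finset.mem_filter, Finset.mem_range] at hk ⊢
      omega
    · intro k _ _
      positivity
  linarith

/-- the modulus of the zeta function on the line -/
noncomputable def MJ_F (η u : ℝ) : ℝ := ‖riemannZeta (((1 / 2 + η : ℝ) : ℂ) + (u : ℂ) * I)‖

theorem MJ_F_cont {η : ℝ} (hη1 : η ≤ 1 / 8) : Continuous (MJ_F η) := by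
  unfold MJ_F
  refine (FM_cont' (τ := ((1 / 2 + η : ℝ) : ℂ)) ?_).norm
  rw [Complex.ofReal_re]
  intro h
  linarith

theorem MJ_moment (η ε : ℝ) (hη : 0 < η) (hη1 : η ≤ 1 / 8) (hε : 0 < ε) :
    ∃ C : ℝ, 0 < C ∧ ∀ T : ℝ, 1 ≤ T → ∫ u in (0 : ℝ)..(2 * T), MJ_F η u ^ 4 ≤ C * T ^ (1 + ε) := by
  obtain ⟨C, hC, hfm⟩ := fourth_moment η ε hη (by linarith) hε
  have hcont := (MJ_F_cont (η := η) hη1).pow 4
  set C₀ : ℝ := ∫ u in (0 : ℝ)..2, MJ_F η u ^ 4 with hC₀
  have hC₀0 : 0 ≤ C₀ := intervalIntegral.integral_nonneg (by norm_num) fun u _ => by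
    unfold MJ_F; positivity
  have hint : ∀ a b : ℝ, IntervalIntegrable (fun u => MJ_F η u ^ 4) volume a b := fun a b =>
    hcont.intervalIntegrable a b
  have hI : ∀ K : ℕ, ∫ u in (0 : ℝ)..(2 ^ (K + 1)), MJ_F η u ^ 4 ≤
      C₀ + C * ((2 : ℝ) ^ (K + 1)) ^ (1 + ε) := by
    intro K
    induction K with
    | zero =>
      simp only [zero_add, pow_one]
      have : 0 < C * (2 : ℝ) ^ (1 + ε) := by positivity
      linarith
    | succ K ih =>
      rw [← intervalIntegral.integral_add_adjacent_intervals (hint 0 (2 ^ (K + 1))) (hint _ _)]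
      have h2 : (2 : ℝ) ≤ 2 ^ (K + 1) := by
        have : (1 : ℝ) ≤ 2 ^ K := one_le_pow₀ (by norm_num)
        rw [pow_succ]; linarith
      have h3 := hfm (2 ^ (K + 1)) (1 / 2 + η) h2 le_rfl
      have e1 : (2 : ℝ) ^ (K + 1 + 1) = 2 * 2 ^ (K + 1) := by ring
      have e2 : ((2 : ℝ) ^ (K + 1 + 1)) ^ (1 + ε) ≥ 2 * ((2 : ℝ) ^ (K + 1)) ^ (1 + ε) := by
        rw [e1, Real.mul_rpow (by norm_num) (by positivity)]
        have : (2 : ℝ) ≤ 2 ^ (1 + ε) := by
          conv_lhs => rw [← Real.rpow_one 2]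
          exact Real.rpow_le_rpow_of_exponent_le (by norm_num) (by linarith)
        have h5 : (0 : ℝ) ≤ ((2 : ℝ) ^ (K + 1)) ^ (1 + ε) := by positivity
        nlinarith
      have h4 : ∫ u in ((2 : ℝ) ^ (K + 1))..(2 ^ (K + 1 + 1)), MJ_F η u ^ 4 ≤
          C * ((2 : ℝ) ^ (K + 1)) ^ (1 + ε) := by
        rw [e1]; exact h3
      nlinarith
  refine ⟨C₀ + C * 4 ^ (1 + ε), by positivity, fun T hT => ?_⟩
  obtain ⟨n, hn1, hn2⟩ := exists_nat_pow_near hT (by norm_num : (1 : ℝ) < 2)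
  have h1 : 2 * T ≤ 2 ^ (n + 1 + 1) := by
    rw [pow_succ]; linarith
  have h2 : (2 : ℝ) ^ (n + 1 + 1) ≤ 4 * T := by
    have : (2 : ℝ) ^ (n + 1 + 1) = 4 * 2 ^ n := by ring
    rw [this]; linarith
  have h3 : ∫ u in (0 : ℝ)..(2 * T), MJ_F η u ^ 4 ≤ ∫ u in (0 : ℝ)..(2 ^ (n + 1 + 1)), MJ_F η u ^ 4 := by
    rw [← intervalIntegral.integral_add_adjacent_intervals (hint 0 (2 * T)) (hint _ (2 ^ (n + 1 + 1)))]
    have : 0 ≤ ∫ u in (2 * T)..(2 ^ (n + 1 + 1)), MJ_F η u ^ 4 :=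
      intervalIntegral.integral_nonneg h1 fun u _ => by unfold MJ_F; positivity
    linarith
  refine h3.trans ((hI (n + 1)).trans ?_)
  have h4 : ((2 : ℝ) ^ (n + 1 + 1)) ^ (1 + ε) ≤ (4 * T) ^ (1 + ε) :=
    Real.rpow_le_rpow (by positivity) h2 (by linarith)
  rw [Real.mul_rpow (by norm_num) (by linarith)] at h4
  have h5 : (1 : ℝ) ≤ T ^ (1 + ε) := Real.one_le_rpow hT (by linarith)
  nlinarith

/-! ## module MJ : moments of the local averages (uses DM fourth_moment) -/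

theorem moments (η ε : ℝ) (hη : 0 < η) (hη1 : η ≤ 1 / 8) (hε : 0 < ε) : ∃ C T₀ : ℝ, 0 < C ∧
    ∀ T : ℝ, T₀ ≤ T → ∃ A : ℕ → ℝ, (∀ j, 0 ≤ A j) ∧
      (∀ τ : ℝ, Real.log T ≤ τ → τ ≤ T → 1 + Zt η (τ / 2) τ ≤ A ⌊τ⌋₊) ∧
      ∑ j ∈ Finset.range (⌊T⌋₊ + 1), A j ^ 4 ≤ C * T ^ (1 + ε) := by
  obtain ⟨C, hC, hmom⟩ := MJ_moment η ε hη hη1 hε
  have hFc := MJ_F_cont (η := η) hη1
  have hF0 : ∀ u, 0 ≤ MJ_F η u := fun u => norm_nonneg _
  set E : ℝ := Real.exp 1 with hE
  have hE0 : 0 < E := Real.exp_pos _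
  refine ⟨16 + 8 * E ^ 4 * 27 * (Real.exp 2 * 4) * C, 1, by positivity, fun T hT => ?_⟩
  have hT0 : (0 : ℝ) ≤ 2 * T := by linarith
  refine ⟨fun j => 1 + E * ∫ u in (0 : ℝ)..(2 * T), MJ_F η u * MJ_g j u, ?_, ?_, ?_⟩
  · intro j
    have : 0 ≤ ∫ u in (0 : ℝ)..(2 * T), MJ_F η u * MJ_g j u :=
      intervalIntegral.integral_nonneg hT0 fun u _ => mul_nonneg (hF0 u) (MJ_g_pos j u)
    positivity
  · intro τ hτ1 hτ2
    have hτ0 : 0 ≤ τ := (Real.log_nonneg hT).trans hτ1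
    refine add_le_add le_rfl ?_
    -- change of variables
    have h1 : Zt η (τ / 2) τ = ∫ u in (τ / 2)..(3 * τ / 2), MJ_F η u * Real.exp (-(u - τ) ^ 2) := by
      unfold Zt
      have h2 := intervalIntegral.integral_comp_add_left (a := -(τ / 2)) (b := τ / 2)
        (fun u => MJ_F η u * Real.exp (-(u - τ) ^ 2)) τ
      have e1 : τ + -(τ / 2) = τ / 2 := by ring
      have e2 : τ + τ / 2 = 3 * τ / 2 := by ring
      rw [e1, e2] at h2
      rw [← h2]
      refine intervalIntegral.integral_congr fun v _ => ?_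
      simp only [MJ_F]
      rw [add_sub_cancel_left]
    have hg' : Continuous (fun u : ℝ => Real.exp (-(u - τ) ^ 2)) := by fun_prop
    have h3 : ∫ u in (τ / 2)..(3 * τ / 2), MJ_F η u * Real.exp (-(u - τ) ^ 2) ≤
        ∫ u in (τ / 2)..(3 * τ / 2), E * (MJ_F η u * MJ_g ⌊τ⌋₊ u) := by
      refine intervalIntegral.integral_mono_on (by linarith) ((hFc.mul hg').intervalIntegrable _ _)
        ((continuous_const.mul (hFc.mul (MJ_g_cont _))).intervalIntegrable _ _) fun u _ => ?_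
      have h4 : Real.exp (-(u - τ) ^ 2) ≤ E * MJ_g ⌊τ⌋₊ u := by
        unfold MJ_g
        rw [hE, ← Real.exp_add]
        refine Real.exp_le_exp.mpr ?_
        have hf1 : (⌊τ⌋₊ : ℝ) ≤ τ := Nat.floor_le hτ0
        have hf2 : τ < ⌊τ⌋₊ + 1 := Nat.lt_floor_add_one τ
        set m : ℝ := (⌊τ⌋₊ : ℝ)
        nlinarith [sq_nonneg (u - τ - (τ - m)), sq_nonneg (τ - m), mul_nonneg (sub_nonneg.mpr hf1)
          (sub_nonneg.mpr hf2.le)]
      calc MJ_F η u * Real.exp (-(u - τ) ^ 2) ≤ MJ_F η u * (E * MJ_g ⌊τ⌋₊ u) :=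
            mul_le_mul_of_nonneg_left h4 (hF0 u)
        _ = _ := by ring
    rw [h1]
    refine h3.trans ?_
    rw [intervalIntegral.integral_const_mul]
    refine mul_le_mul_of_nonneg_left ?_ hE0.le
    have hi : ∀ a b : ℝ, IntervalIntegrable (fun u => MJ_F η u * MJ_g ⌊τ⌋₊ u) volume a b :=
      fun a b => (hFc.mul (MJ_g_cont _)).intervalIntegrable a b
    rw [← intervalIntegral.integral_add_adjacent_intervals (hi 0 (τ / 2)) (hi _ (2 * T)),
      ← intervalIntegral.integral_add_adjacent_intervals (hi (τ / 2) (3 * τ / 2)) (hi _ (2 * T))]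
    have p1 : 0 ≤ ∫ u in (0 : ℝ)..(τ / 2), MJ_F η u * MJ_g ⌊τ⌋₊ u :=
      intervalIntegral.integral_nonneg (by linarith) fun u _ => mul_nonneg (hF0 u) (MJ_g_pos _ u)
    have p2 : 0 ≤ ∫ u in (3 * τ / 2)..(2 * T), MJ_F η u * MJ_g ⌊τ⌋₊ u :=
      intervalIntegral.integral_nonneg (by linarith) fun u _ => mul_nonneg (hF0 u) (MJ_g_pos _ u)
    linarith
  · -- the sum
    have hpt : ∀ j : ℕ, (1 + E * ∫ u in (0 : ℝ)..(2 * T), MJ_F η u * MJ_g j u) ^ 4 ≤
        8 + 8 * E ^ 4 * 27 * ∫ u in (0 : ℝ)..(2 * T), MJ_F η u ^ 4 * MJ_g j u := by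
      intro j
      set P := ∫ u in (0 : ℝ)..(2 * T), MJ_F η u * MJ_g j u with hP
      have hP0 : 0 ≤ P := intervalIntegral.integral_nonneg hT0 fun u _ =>
        mul_nonneg (hF0 u) (MJ_g_pos j u)
      have h1 : P ^ 4 ≤ 27 * ∫ u in (0 : ℝ)..(2 * T), MJ_F η u ^ 4 * MJ_g j u := by
        refine (MJ_four hT0 hFc (MJ_g_cont j) (MJ_g_pos j)).trans ?_
        have h2 := MJ_g_int j hT0
        have h3 : 0 ≤ ∫ u in (0 : ℝ)..(2 * T), MJ_g j u :=
          intervalIntegral.integral_nonneg hT0 fun u _ => MJ_g_pos j u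
        have h4 : (∫ u in (0 : ℝ)..(2 * T), MJ_g j u) ^ 3 ≤ 27 := by
          calc (∫ u in (0 : ℝ)..(2 * T), MJ_g j u) ^ 3 ≤ 3 ^ 3 := pow_le_pow_left₀ h3 h2 3
            _ = 27 := by norm_num
        refine mul_le_mul_of_nonneg_right h4 ?_
        exact intervalIntegral.integral_nonneg hT0 fun u _ =>
          mul_nonneg (pow_nonneg (hF0 u) 4) (MJ_g_pos j u)
      have h2 : (1 + E * P) ^ 4 ≤ 8 * (1 + (E * P) ^ 4) := by
        have hx : 0 ≤ E * P := by positivity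
        nlinarith [sq_nonneg (1 - E * P), sq_nonneg (1 - (E * P) ^ 2), mul_nonneg hx hx,
          sq_nonneg ((1 - E * P) * (1 + E * P)), mul_nonneg hx (sq_nonneg (1 - E * P))]
      calc (1 + E * P) ^ 4 ≤ 8 * (1 + (E * P) ^ 4) := h2
        _ = 8 + 8 * E ^ 4 * P ^ 4 := by ring
        _ ≤ 8 + 8 * E ^ 4 * (27 * ∫ u in (0 : ℝ)..(2 * T), MJ_F η u ^ 4 * MJ_g j u) := by
          have : 0 ≤ 8 * E ^ 4 := by positivity
          have := mul_le_mul_of_nonneg_left h1 this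
          linarith
        _ = _ := by ring
    refine (Finset.sum_le_sum fun j _ => hpt j).trans ?_
    rw [Finset.sum_add_distrib, Finset.sum_const, Finset.card_range, nsmul_eq_mul, ← Finset.mul_sum]
    have hsum : ∑ j ∈ Finset.range (⌊T⌋₊ + 1), ∫ u in (0 : ℝ)..(2 * T), MJ_F η u ^ 4 * MJ_g j u ≤
        Real.exp 2 * 4 * ∫ u in (0 : ℝ)..(2 * T), MJ_F η u ^ 4 := by
      rw [← intervalIntegral.integral_finsetSum (f := fun j u => MJ_F η u ^ 4 * MJ_g j u)
        (fun j _ => ((hFc.pow 4).mul (MJ_g_cont j)).intervalIntegrable _ _),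
        ← intervalIntegral.integral_const_mul]
      refine intervalIntegral.integral_mono_on hT0 ?_ ?_ fun u hu => ?_
      · exact (continuous_finsetSum _ fun j _ =>
          (hFc.pow 4).mul (MJ_g_cont j)).intervalIntegrable _ _
      · exact (continuous_const.mul (hFc.pow 4)).intervalIntegrable _ _
      · rw [← Finset.mul_sum, mul_comm (Real.exp 2 * 4)]
        exact mul_le_mul_of_nonneg_left (MJ_g_sum u hu.1 _) (pow_nonneg (hF0 u) 4)
    have hfl : ((⌊T⌋₊ + 1 : ℕ) : ℝ) ≤ 2 * T := by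
      push_cast
      have := Nat.floor_le (by linarith : (0 : ℝ) ≤ T)
      linarith
    have hTT : T ≤ T ^ (1 + ε) := by
      conv_lhs => rw [← Real.rpow_one T]
      exact Real.rpow_le_rpow_of_exponent_le hT (by linarith)
    have hm := hmom T hT
    have hc0 : 0 ≤ 8 * E ^ 4 * 27 := by positivity
    have hc1 : 0 ≤ Real.exp 2 * 4 := by positivity
    calc ((⌊T⌋₊ + 1 : ℕ) : ℝ) * 8 + 8 * E ^ 4 * 27 *
          ∑ j ∈ Finset.range (⌊T⌋₊ + 1), ∫ u in (0 : ℝ)..(2 * T), MJ_F η u ^ 4 * MJ_g j u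
        ≤ 2 * T * 8 + 8 * E ^ 4 * 27 * (Real.exp 2 * 4 * (C * T ^ (1 + ε))) := by
          refine add_le_add (mul_le_mul_of_nonneg_right hfl (by norm_num)) ?_
          refine mul_le_mul_of_nonneg_left (hsum.trans ?_) hc0
          exact mul_le_mul_of_nonneg_left hm hc1
      _ ≤ 16 * T ^ (1 + ε) + 8 * E ^ 4 * 27 * (Real.exp 2 * 4 * (C * T ^ (1 + ε))) := by
          have : 2 * T * 8 ≤ 16 * T ^ (1 + ε) := by linarith
          linarith
      _ = _ := by ring

end Pool.Agent.helper78.ED
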