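import Pool.Agent.helper78.ED.Defs2
import Pool.Agent.helper33.ED.MJ

/-!
Module M6 of the ED project: sixth moment of the smooth zeta sum.
-/

set_option autoImplicit false

open Complex MeasureTheory

namespace Pool.Agent.helper78.ED

open Pool.Agent.helper84.DM

theorem M6_six {f g : ℝ → ℝ} {a b : ℝ} (hab : a ≤ b) (hf : Continuous f) (hg : Continuous g)
    (hf0 : ∀ x, 0 ≤ f x) (hg0 : ∀ x, 0 ≤ g x) :
    (∫ x in a..b, f x * g x) ^ 6 ≤ (∫ x in a..b, g x) ^ 5 * ∫ x in a..b, f x ^ 6 * g x := by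
  have h1 := MJ_cs hab hf hg hg0
  have h2 := MJ_cs (f := f) (g := fun x => f x * g x) hab hf (hf.mul hg)
    (fun x => mul_nonneg (hf0 x) (hg0 x))
  have h3 := MJ_cs (f := fun x => f x ^ 3) hab (hf.pow 3) hg hg0
  have e1 : ∀ x, f x * (f x * g x) = f x ^ 2 * g x := by intro x; ring
  have e2 : ∀ x, f x ^ 2 * (f x * g x) = f x ^ 3 * g x := by intro x; ring
  have e3 : ∀ x, (f x ^ 3) ^ 2 * g x = f x ^ 6 * g x := by intro x; ring
  simp only [e1, e2] at h2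
  simp only [e3] at h3
  have n0 : 0 ≤ ∫ x in a..b, g x := intervalIntegral.integral_nonneg hab fun x _ => hg0 x
  have n1 : 0 ≤ ∫ x in a..b, f x * g x :=
    intervalIntegral.integral_nonneg hab fun x _ => mul_nonneg (hf0 x) (hg0 x)
  have n3 : 0 ≤ ∫ x in a..b, f x ^ 3 * g x :=
    intervalIntegral.integral_nonneg hab fun x _ => mul_nonneg (pow_nonneg (hf0 x) 3) (hg0 x)
  have n6 : 0 ≤ ∫ x in a..b, f x ^ 6 * g x :=
    intervalIntegral.integral_nonneg hab fun x _ => mul_nonneg (pow_nonneg (hf0 x) 6) (hg0 x)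
  set a0 := ∫ x in a..b, g x
  set a1 := ∫ x in a..b, f x * g x
  set a2 := ∫ x in a..b, f x ^ 2 * g x
  set a3 := ∫ x in a..b, f x ^ 3 * g x
  set a6 := ∫ x in a..b, f x ^ 6 * g x
  rcases n1.eq_or_lt with h0 | hpos
  · rw [← h0]
    have : 0 ≤ a0 ^ 5 * a6 := by positivity
    simpa using this
  · have h4 : a1 * a1 ^ 3 ≤ a1 * (a0 ^ 2 * a3) := by
      calc a1 * a1 ^ 3 = (a1 ^ 2) ^ 2 := by ring
        _ ≤ (a0 * a2) ^ 2 := pow_le_pow_left₀ (sq_nonneg _) h1 2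
        _ = a0 ^ 2 * a2 ^ 2 := by ring
        _ ≤ a0 ^ 2 * (a1 * a3) := mul_le_mul_of_nonneg_left h2 (sq_nonneg _)
        _ = _ := by ring
    have h5 : a1 ^ 3 ≤ a0 ^ 2 * a3 := le_of_mul_le_mul_left h4 hpos
    calc a1 ^ 6 = (a1 ^ 3) ^ 2 := by ring
      _ ≤ (a0 ^ 2 * a3) ^ 2 := pow_le_pow_left₀ (by positivity) h5 2
      _ = a0 ^ 4 * a3 ^ 2 := by ring
      _ ≤ a0 ^ 4 * (a0 * a6) := mul_le_mul_of_nonneg_left h3 (by positivity)
      _ = _ := by ring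

theorem M6_cont (K : ℕ) : Continuous (DK K) := by
  unfold DK
  refine (continuous_finsetSum _ fun n hn => ?_).norm
  have hn' : (n : ℂ) ≠ 0 := by
    have := (Finset.mem_Icc.mp hn).1
    exact_mod_cast (by omega : n ≠ 0)
  refine Continuous.const_cpow (by fun_prop) (Or.inl hn')

/-! ## module M6 : sixth moment of the smooth zeta sum (uses RF, S6) -/

theorem moments6_of
    (SS_refl : ∀ k : ℕ, 1 ≤ k → ∃ C T₀ : ℝ, 0 < C ∧ ∀ T : ℝ, T₀ ≤ T →
      ∀ M z τ : ℝ, 1 ≤ M → M ≤ T ^ (6 : ℕ) → 0 ≤ z → z ≤ 1 → Real.log T ≤ |τ| → |τ| ≤ T →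
      ∀ K : ℕ, 1 ≤ K → (K : ℝ) ≤ T ^ (6 : ℕ) →
        ‖SS M z τ‖ ≤ C * (1 + T ^ k * (M * K) ^ (-((k : ℝ) - 1 / 2)) +
          M ^ (1 / 2 : ℝ) * Dt K (|τ| / 2) |τ|))
    (sixth : ∀ ε : ℝ, 0 < ε → ∃ C : ℝ, 0 < C ∧ ∀ T : ℝ, 2 ≤ T → ∀ K : ℕ, 1 ≤ K →
      (K : ℝ) ≤ T → ∫ u in (0 : ℝ)..(2 * T), DK K u ^ 6 ≤ C * T ^ ε * (T + (K : ℝ) ^ 3))
    (ε : ℝ) (hε : 0 < ε) : ∃ C T₀ : ℝ, 0 < C ∧ ∀ T : ℝ, T₀ ≤ T → ∀ M : ℝ,
    T ^ (2 / 3 : ℝ) ≤ M → M ≤ T ^ (6 : ℕ) → ∃ A : ℕ → ℝ, (∀ j, 0 ≤ A j) ∧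
      (∀ z τ : ℝ, 0 ≤ z → z ≤ 1 → Real.log T ≤ |τ| → |τ| ≤ T →
        ‖SS M z τ‖ ≤ M ^ (1 / 2 : ℝ) * A ⌊|τ|⌋₊) ∧
      ∑ j ∈ Finset.range (⌊T⌋₊ + 1), A j ^ 6 ≤ C * T ^ (1 + ε) := by
  set e : ℝ := min (ε / 8) (1 / 12) with he
  have he0 : 0 < e := lt_min (by linarith) (by norm_num)
  have he1 : e ≤ ε / 8 := min_le_left _ _
  have he2 : e ≤ 1 / 12 := min_le_right _ _
  obtain ⟨k, hk⟩ := exists_nat_ge (1 / 2 + 1 / (2 * e))
  have hk1 : 1 ≤ k := by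
    have : (0 : ℝ) < k := lt_of_lt_of_le (by positivity) hk
    exact_mod_cast this
  obtain ⟨C₁, T₁, hC₁, hR⟩ := SS_refl k hk1
  obtain ⟨C₂, hC₂, hS⟩ := sixth (ε / 2) (by linarith)
  set E : ℝ := Real.exp 1 with hE
  have hE0 : 0 < E := Real.exp_pos _
  refine ⟨C₁ ^ 6 * (32 * (128 + E ^ 6 * 243 * (Real.exp 2 * 4) * (9 * C₂))), max T₁ 4,
    by positivity, fun T hT M hM1 hM2 => ?_⟩
  have hT1 : T₁ ≤ T := (le_max_left _ _).trans hT
  have hT4 : 4 ≤ T := (le_max_right _ _).trans hT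
  have hTone : 1 ≤ T := by linarith
  have hTpos : 0 < T := by linarith
  have hT0 : (0 : ℝ) ≤ 2 * T := by linarith
  have hMone : 1 ≤ M := (Real.one_le_rpow hTone (by norm_num)).trans hM1
  have hMpos : 0 < M := by linarith
  set K : ℕ := ⌊T ^ (1 + e) / M⌋₊ + 1 with hK
  have hK1 : 1 ≤ K := by omega
  have hq0 : 0 ≤ T ^ (1 + e) / M := by positivity
  have hKlow : T ^ (1 + e) / M ≤ K := by
    rw [hK]; push_cast
    exact (Nat.lt_floor_add_one _).le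
  have hMK : T ^ (1 + e) ≤ M * K := by
    rw [div_le_iff₀ hMpos] at hKlow
    linarith
  have hKup : (K : ℝ) ≤ 2 * T ^ (1 / 3 + e) := by
    have h1 : (K : ℝ) ≤ T ^ (1 + e) / M + 1 := by
      rw [hK]; push_cast
      have := Nat.floor_le hq0
      linarith
    have h2 : T ^ (1 + e) / M ≤ T ^ (1 / 3 + e) := by
      rw [div_le_iff₀ hMpos]
      calc T ^ (1 + e) = T ^ (1 / 3 + e) * T ^ (2 / 3 : ℝ) := by
            rw [← Real.rpow_add hTpos]; congr 1; ring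
        _ ≤ T ^ (1 / 3 + e) * M := mul_le_mul_of_nonneg_left hM1 (by positivity)
    have h3 : 1 ≤ T ^ (1 / 3 + e) := Real.one_le_rpow hTone (by positivity)
    linarith
  have hKT : (K : ℝ) ≤ T := by
    refine hKup.trans ?_
    have h1 : (2 : ℝ) ≤ T ^ (1 / 2 : ℝ) := by
      rw [← Real.sqrt_eq_rpow]
      refine Real.le_sqrt_of_sq_le ?_
      linarith
    have h2 : T ^ (1 / 3 + e) ≤ T ^ (1 / 2 : ℝ) :=
      Real.rpow_le_rpow_of_exponent_le hTone (by linarith)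
    calc 2 * T ^ (1 / 3 + e) ≤ T ^ (1 / 2 : ℝ) * T ^ (1 / 2 : ℝ) :=
          mul_le_mul h1 h2 (by positivity) (by positivity)
      _ = T := by rw [← Real.rpow_add hTpos]; norm_num
  have hK3 : (K : ℝ) ^ 3 ≤ 8 * T ^ (1 + 3 * e) := by
    calc (K : ℝ) ^ 3 ≤ (2 * T ^ (1 / 3 + e)) ^ 3 := pow_le_pow_left₀ (by positivity) hKup 3
      _ = 8 * T ^ (1 + 3 * e) := by
        rw [mul_pow, ← Real.rpow_natCast (T ^ (1 / 3 + e)) 3, ← Real.rpow_mul hTpos.le]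
        norm_num
        congr 1; ring
  have hKT6 : (K : ℝ) ≤ T ^ (6 : ℕ) := hKT.trans (le_self_pow₀ hTone (by norm_num))
  -- the error term
  have herr : T ^ k * (M * K) ^ (-((k : ℝ) - 1 / 2)) ≤ 1 := by
    have hkh : 0 ≤ (k : ℝ) - 1 / 2 := by
      have : (1 : ℝ) ≤ k := by exact_mod_cast hk1
      linarith
    have h1 : (M * K) ^ (-((k : ℝ) - 1 / 2)) ≤ (T ^ (1 + e)) ^ (-((k : ℝ) - 1 / 2)) :=
      Real.rpow_le_rpow_of_nonpos (by positivity) hMK (by linarith)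
    have h2 : T ^ k * (T ^ (1 + e)) ^ (-((k : ℝ) - 1 / 2)) = T ^ (1 / 2 - e * ((k : ℝ) - 1 / 2)) := by
      rw [← Real.rpow_natCast T k, ← Real.rpow_mul hTpos.le, ← Real.rpow_add hTpos]
      congr 1; ring
    have h3 : 1 / 2 - e * ((k : ℝ) - 1 / 2) ≤ 0 := by
      have h4 : 1 / (2 * e) ≤ (k : ℝ) - 1 / 2 := by linarith
      rw [div_le_iff₀ (by positivity)] at h4
      linarith
    calc T ^ k * (M * K) ^ (-((k : ℝ) - 1 / 2)) ≤ T ^ k * (T ^ (1 + e)) ^ (-((k : ℝ) - 1 / 2)) :=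
          mul_le_mul_of_nonneg_left h1 (by positivity)
      _ = T ^ (1 / 2 - e * ((k : ℝ) - 1 / 2)) := h2
      _ ≤ 1 := Real.rpow_le_one_of_one_le_of_nonpos hTone h3
  have hFc : Continuous (DK K) := M6_cont K
  have hF0 : ∀ u, 0 ≤ DK K u := fun u => norm_nonneg _
  have hP0 : ∀ j, 0 ≤ ∫ u in (0 : ℝ)..(2 * T), DK K u * MJ_g j u := fun j =>
    intervalIntegral.integral_nonneg hT0 fun u _ => mul_nonneg (hF0 u) (MJ_g_pos j u)
  refine ⟨fun j => C₁ * (2 + E * ∫ u in (0 : ℝ)..(2 * T), DK K u * MJ_g j u), ?_, ?_, ?_⟩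
  · intro j
    have := hP0 j
    positivity
  · intro z τ' hz0 hz1 hτ1 hτ2
    set τ : ℝ := |τ'| with hτ
    have hτ0 : 0 ≤ τ := abs_nonneg _
    have hDt : Dt K (τ / 2) τ ≤ E * ∫ u in (0 : ℝ)..(2 * T), DK K u * MJ_g ⌊τ⌋₊ u := by
      -- change of variables
      have h1 : Dt K (τ / 2) τ = ∫ u in (τ / 2)..(3 * τ / 2), DK K u * Real.exp (-(u - τ) ^ 2) := by
        unfold Dt
        have h2 := intervalIntegral.integral_comp_add_left (a := -(τ / 2)) (b := τ / 2)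
          (fun u => DK K u * Real.exp (-(u - τ) ^ 2)) τ
        have e1 : τ + -(τ / 2) = τ / 2 := by ring
        have e2 : τ + τ / 2 = 3 * τ / 2 := by ring
        rw [e1, e2] at h2
        rw [← h2]
        refine intervalIntegral.integral_congr fun v _ => ?_
        rw [add_sub_cancel_left]
      have hg' : Continuous (fun u : ℝ => Real.exp (-(u - τ) ^ 2)) := by fun_prop
      have h3 : ∫ u in (τ / 2)..(3 * τ / 2), DK K u * Real.exp (-(u - τ) ^ 2) ≤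
          ∫ u in (τ / 2)..(3 * τ / 2), E * (DK K u * MJ_g ⌊τ⌋₊ u) := by
        refine intervalIntegral.integral_mono_on (by linarith) ((hFc.mul hg').intervalIntegrable _ _)
          ((continuous_const.mul (hFc.mul (MJ_g_cont _))).intervalIntegrable _ _) fun u _ => ?_
        have h4 : Real.exp (-(u - τ) ^ 2) ≤ E * MJ_g ⌊τ⌋₊ u := by
          unfold MJ_g
          rw [hE, ← Real.exp_add]
          refine Real.exp_le_exp.mpr ?_
          have hf1 : (⌊τ⌋₊ : ℝ) ≤ τ := Nat.floor_le hτ0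
          have hf2 : τ < ⌊τ⌋₊ + 1 := Nat.lt_floor_add_one τ
          set m : ℝ := (⌊τ⌋₊ : ℝ)
          nlinarith [sq_nonneg (u - τ - (τ - m)), sq_nonneg (τ - m),
            mul_nonneg (sub_nonneg.mpr hf1) (sub_nonneg.mpr hf2.le)]
        calc DK K u * Real.exp (-(u - τ) ^ 2) ≤ DK K u * (E * MJ_g ⌊τ⌋₊ u) :=
              mul_le_mul_of_nonneg_left h4 (hF0 u)
          _ = _ := by ring
      rw [h1]
      refine h3.trans ?_
      rw [intervalIntegral.integral_const_mul]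
      refine mul_le_mul_of_nonneg_left ?_ hE0.le
      have hi : ∀ a b : ℝ, IntervalIntegrable (fun u => DK K u * MJ_g ⌊τ⌋₊ u) volume a b :=
        fun a b => (hFc.mul (MJ_g_cont _)).intervalIntegrable a b
      rw [← intervalIntegral.integral_add_adjacent_intervals (hi 0 (τ / 2)) (hi _ (2 * T)),
        ← intervalIntegral.integral_add_adjacent_intervals (hi (τ / 2) (3 * τ / 2)) (hi _ (2 * T))]
      have p1 : 0 ≤ ∫ u in (0 : ℝ)..(τ / 2), DK K u * MJ_g ⌊τ⌋₊ u :=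
        intervalIntegral.integral_nonneg (by linarith) fun u _ => mul_nonneg (hF0 u) (MJ_g_pos _ u)
      have p2 : 0 ≤ ∫ u in (3 * τ / 2)..(2 * T), DK K u * MJ_g ⌊τ⌋₊ u :=
        intervalIntegral.integral_nonneg (by linarith) fun u _ => mul_nonneg (hF0 u) (MJ_g_pos _ u)
      linarith
    have hM12 : 1 ≤ M ^ (1 / 2 : ℝ) := Real.one_le_rpow hMone (by norm_num)
    have hPj := hP0 ⌊τ⌋₊
    set P := ∫ u in (0 : ℝ)..(2 * T), DK K u * MJ_g ⌊τ⌋₊ u with hP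
    calc ‖SS M z τ'‖ ≤ C₁ * (1 + T ^ k * (M * K) ^ (-((k : ℝ) - 1 / 2)) +
          M ^ (1 / 2 : ℝ) * Dt K (τ / 2) τ) :=
          hR T hT1 M z τ' hMone hM2 hz0 hz1 hτ1 hτ2 K hK1 hKT6
      _ ≤ C₁ * (1 + 1 + M ^ (1 / 2 : ℝ) * (E * P)) := by
          refine mul_le_mul_of_nonneg_left ?_ hC₁.le
          exact add_le_add (add_le_add le_rfl herr)
            (mul_le_mul_of_nonneg_left hDt (by positivity))
      _ ≤ C₁ * (M ^ (1 / 2 : ℝ) * 2 + M ^ (1 / 2 : ℝ) * (E * P)) := by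
          refine mul_le_mul_of_nonneg_left ?_ hC₁.le
          linarith
      _ = M ^ (1 / 2 : ℝ) * (C₁ * (2 + E * P)) := by ring
  · -- the sum
    have hpt : ∀ j : ℕ, (C₁ * (2 + E * ∫ u in (0 : ℝ)..(2 * T), DK K u * MJ_g j u)) ^ 6 ≤
        C₁ ^ 6 * (32 * (64 + E ^ 6 * 243 * ∫ u in (0 : ℝ)..(2 * T), DK K u ^ 6 * MJ_g j u)) := by
      intro j
      have hPj := hP0 j
      set P := ∫ u in (0 : ℝ)..(2 * T), DK K u * MJ_g j u with hP
      have h1 : P ^ 6 ≤ 243 * ∫ u in (0 : ℝ)..(2 * T), DK K u ^ 6 * MJ_g j u := by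
        refine (M6_six hT0 hFc (MJ_g_cont j) hF0 (MJ_g_pos j)).trans ?_
        have h2 := MJ_g_int j hT0
        have h3 : 0 ≤ ∫ u in (0 : ℝ)..(2 * T), MJ_g j u :=
          intervalIntegral.integral_nonneg hT0 fun u _ => MJ_g_pos j u
        have h4 : (∫ u in (0 : ℝ)..(2 * T), MJ_g j u) ^ 5 ≤ 243 := by
          calc (∫ u in (0 : ℝ)..(2 * T), MJ_g j u) ^ 5 ≤ 3 ^ 5 := pow_le_pow_left₀ h3 h2 5
            _ = 243 := by norm_num
        refine mul_le_mul_of_nonneg_right h4 ?_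
        exact intervalIntegral.integral_nonneg hT0 fun u _ =>
          mul_nonneg (pow_nonneg (hF0 u) 6) (MJ_g_pos j u)
      have h2 : (2 + E * P) ^ 6 ≤ 32 * (64 + E ^ 6 * P ^ 6) := by
        have hx : 0 ≤ E * P := by positivity
        have h5 := add_pow_le (by norm_num : (0 : ℝ) ≤ 2) hx 6
        calc (2 + E * P) ^ 6 ≤ 2 ^ (6 - 1) * (2 ^ 6 + (E * P) ^ 6) := h5
          _ = _ := by norm_num; ring
      have h3 : E ^ 6 * P ^ 6 ≤ E ^ 6 * (243 * ∫ u in (0 : ℝ)..(2 * T), DK K u ^ 6 * MJ_g j u) :=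
        mul_le_mul_of_nonneg_left h1 (by positivity)
      calc (C₁ * (2 + E * P)) ^ 6 = C₁ ^ 6 * (2 + E * P) ^ 6 := by ring
        _ ≤ C₁ ^ 6 * (32 * (64 + E ^ 6 * 243 *
              ∫ u in (0 : ℝ)..(2 * T), DK K u ^ 6 * MJ_g j u)) := by
          refine mul_le_mul_of_nonneg_left ?_ (by positivity)
          linarith
    refine (Finset.sum_le_sum fun j _ => hpt j).trans ?_
    rw [← Finset.mul_sum, ← Finset.mul_sum, Finset.sum_add_distrib, Finset.sum_const,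
      Finset.card_range, nsmul_eq_mul, ← Finset.mul_sum]
    have hsum : ∑ j ∈ Finset.range (⌊T⌋₊ + 1), ∫ u in (0 : ℝ)..(2 * T), DK K u ^ 6 * MJ_g j u ≤
        Real.exp 2 * 4 * ∫ u in (0 : ℝ)..(2 * T), DK K u ^ 6 := by
      rw [← intervalIntegral.integral_finsetSum (f := fun j u => DK K u ^ 6 * MJ_g j u)
        (fun j _ => ((hFc.pow 6).mul (MJ_g_cont j)).intervalIntegrable _ _),
        ← intervalIntegral.integral_const_mul]
      refine intervalIntegral.integral_mono_on hT0 ?_ ?_ fun u hu => ?_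
      · exact (continuous_finsetSum _ fun j _ =>
          (hFc.pow 6).mul (MJ_g_cont j)).intervalIntegrable _ _
      · exact (continuous_const.mul (hFc.pow 6)).intervalIntegrable _ _
      · rw [← Finset.mul_sum, mul_comm (Real.exp 2 * 4)]
        exact mul_le_mul_of_nonneg_left (MJ_g_sum u hu.1 _) (pow_nonneg (hF0 u) 6)
    have hfl : ((⌊T⌋₊ + 1 : ℕ) : ℝ) ≤ 2 * T := by
      push_cast
      have := Nat.floor_le (by linarith : (0 : ℝ) ≤ T)
      linarith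
    have hTT : T ≤ T ^ (1 + ε) := by
      conv_lhs => rw [← Real.rpow_one T]
      exact Real.rpow_le_rpow_of_exponent_le hTone (by linarith)
    have hm : ∫ u in (0 : ℝ)..(2 * T), DK K u ^ 6 ≤ 9 * C₂ * T ^ (1 + ε) := by
      have h1 := hS T (by linarith) K hK1 hKT
      have h2 : T ≤ T ^ (1 + 3 * e) := by
        conv_lhs => rw [← Real.rpow_one T]
        exact Real.rpow_le_rpow_of_exponent_le hTone (by linarith)
      calc ∫ u in (0 : ℝ)..(2 * T), DK K u ^ 6 ≤ C₂ * T ^ (ε / 2) * (T + (K : ℝ) ^ 3) := h1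
        _ ≤ C₂ * T ^ (ε / 2) * (9 * T ^ (1 + 3 * e)) := by
            refine mul_le_mul_of_nonneg_left ?_ (by positivity)
            linarith
        _ = 9 * C₂ * T ^ (ε / 2 + (1 + 3 * e)) := by
            rw [Real.rpow_add hTpos (ε / 2) (1 + 3 * e)]; ring
        _ ≤ 9 * C₂ * T ^ (1 + ε) := by
            refine mul_le_mul_of_nonneg_left ?_ (by positivity)
            exact Real.rpow_le_rpow_of_exponent_le hTone (by linarith)
    have hI : E ^ 6 * 243 * ∑ j ∈ Finset.range (⌊T⌋₊ + 1),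
        ∫ u in (0 : ℝ)..(2 * T), DK K u ^ 6 * MJ_g j u ≤
        E ^ 6 * 243 * (Real.exp 2 * 4 * (9 * C₂ * T ^ (1 + ε))) := by
      refine mul_le_mul_of_nonneg_left (hsum.trans ?_) (by positivity)
      exact mul_le_mul_of_nonneg_left hm (by positivity)
    have hJ : ((⌊T⌋₊ + 1 : ℕ) : ℝ) * 64 ≤ 128 * T ^ (1 + ε) := by linarith
    calc C₁ ^ 6 * (32 * (((⌊T⌋₊ + 1 : ℕ) : ℝ) * 64 + E ^ 6 * 243 *
          ∑ j ∈ Finset.range (⌊T⌋₊ + 1), ∫ u in (0 : ℝ)..(2 * T), DK K u ^ 6 * MJ_g j u))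
        ≤ C₁ ^ 6 * (32 * (128 * T ^ (1 + ε) +
            E ^ 6 * 243 * (Real.exp 2 * 4 * (9 * C₂ * T ^ (1 + ε))))) := by
          refine mul_le_mul_of_nonneg_left ?_ (by positivity)
          refine mul_le_mul_of_nonneg_left ?_ (by norm_num)
          exact add_le_add hJ hI
      _ = _ := by ring

end Pool.Agent.helper78.ED
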